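import Pool.Agent.H18.AKC.Final

/-!
# MP_1bf996_co : almost k-covers whose pair hyperplanes nearly connect the coordinates

`IsAlmostCover k H` : `H` is an almost `k`-cover of `{0,1}^n` with `N` members.
`coverGraph H` : the graph on the `n` coordinates and one extra vertex `none` (put `x_none = 0`),
in which `u` and `v` are adjacent when the hyperplane `x_u + x_v = 1` is a member of `H`; so `i` is
adjacent to `none` when `x_i = 1` is a member.
-/

namespace Pool.Agent.Results.MP_1bf996_co.GraphBackbone

open Pool.Agent.H18.AKC

/-- For all `k ≥ 3` and `c`, if `n` is large, then every almost `k`-cover of `{0,1}^n` whose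
members of the form `x_i = 1` or `x_i + x_j = 1` form a graph with at most `c + 1` components has at
least `n + k.choose 2` members. -/
theorem result (k c : ℕ) (hk : 3 ≤ k) : ∃ n₀ : ℕ, ∀ n : ℕ, n₀ ≤ n →
    ∀ (N : ℕ) (H : Fin N → Set (Fin n → ℝ)), IsAlmostCover k H →
      Nat.card (coverGraph H).ConnectedComponent ≤ c + 1 → n + k.choose 2 ≤ N :=
  ⟨nBoundOf k c, fun n hn N H hH hG => backbone k c hk n hn N H hH hG⟩

end Pool.Agent.Results.MP_1bf996_co.GraphBackbone
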